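import Pool.Agent.Helper2_Pak.Stmts
import Pool.Agent.Helper2_Pack.S2

/-! E2: the adder. -/

namespace Pool.Agent.Helper2_Pak.H35

open Pool.Agent.Helper2_Pack (Motion)

lemma pit_eq {a b e : ℝ} (h : |e| ≤ 1 / 128) (h1 : 0 ≤ a + b / 64) (h2 : 0 ≤ a - b / 64) :
    pit a b e = a + b * e := by
  obtain ⟨h3, h4⟩ := abs_le.mp h
  unfold pit
  have e1 : (a + b / 128) * (2 - 128 * e) - (a + b * e) = (a + b / 64) * (1 - 128 * e) := by ring
  have e2 : (a - b / 128) * (2 + 128 * e) - (a + b * e) = (a - b / 64) * (1 + 128 * e) := by ring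
  have f1 : 0 ≤ (a + b / 64) * (1 - 128 * e) := mul_nonneg h1 (by linarith)
  have f2 : 0 ≤ (a - b / 64) * (1 + 128 * e) := mul_nonneg h2 (by linarith)
  have f3 : 0 ≤ a + b * e := by
    have : 2 * (a + b * e) = (a + b / 64) * (1 + 64 * e) + (a - b / 64) * (1 - 64 * e) := by ring
    have g1 : 0 ≤ (a + b / 64) * (1 + 64 * e) := mul_nonneg h1 (by linarith)
    have g2 : 0 ≤ (a - b / 64) * (1 - 64 * e) := mul_nonneg h2 (by linarith)
    linarith
  rw [min_eq_left (le_min (by linarith) (by linarith)), max_eq_right f3]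

lemma pit_far {a b e : ℝ} (h : 1 / 64 ≤ |e|) (h1 : 0 ≤ a + b / 128) (h2 : 0 ≤ a - b / 128) :
    pit a b e = 0 := by
  unfold pit
  rw [max_eq_left]
  rcases le_abs.mp h with h3 | h3
  · refine (min_le_right _ _).trans ((min_le_left _ _).trans ?_)
    exact mul_nonpos_of_nonneg_of_nonpos h1 (by linarith)
  · refine (min_le_right _ _).trans ((min_le_right _ _).trans ?_)
    exact mul_nonpos_of_nonneg_of_nonpos h2 (by linarith)

lemma pit_le {a b e : ℝ} (h : |e| ≤ 1) (ha : 0 ≤ a) : pit a b e ≤ a + |b| := by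
  unfold pit
  refine max_le (by positivity) ((min_le_left _ _).trans ?_)
  have : b * e ≤ |b| * |e| := by rw [← abs_mul]; exact le_abs_self _
  nlinarith [abs_nonneg b]

lemma slit_far {t d e : ℝ} (ht : 0 < t) (hd : 0 ≤ d) (h : 2 * t ^ 7 ≤ |e|) : slit t d e = 0 := by
  unfold slit
  rw [max_eq_left]
  refine mul_nonpos_of_nonneg_of_nonpos hd ?_
  rw [sub_nonpos, le_div_iff₀ (by positivity)]
  linarith

lemma dent_le {t e : ℝ} (ht : 0 < t) : dent t e ≤ 2 * t ^ 3 := by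
  unfold dent
  refine max_le (by positivity) ?_
  have h3 : 0 < t ^ 3 := by positivity
  nlinarith [abs_nonneg e]

lemma bump_nonneg (t e : ℝ) : 0 ≤ bump t e := le_max_left _ _

/-- the small quantities -/
lemma smalls {t : ℝ} (ht : 0 < t) (h : t ≤ 1 / 2 ^ 60) :
    t ≤ 1 / 1000000 ∧ t ^ 3 ≤ t / 1000000 ∧ t ^ 4 ≤ t ^ 3 / 1000000 ∧ t ^ 7 ≤ t / 1000000 := by
  have h0 : t ≤ 1 / 1000000 := h.trans (by norm_num)
  have h1 : t ^ 2 ≤ 1 / 1000000 := by nlinarith
  have h3 : t ^ 3 ≤ t / 1000000 := by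
    have : t ^ 3 = t * t ^ 2 := by ring
    rw [this]; nlinarith
  have h4 : t ^ 4 ≤ t ^ 3 / 1000000 := by
    have : t ^ 4 = t ^ 3 * t := by ring
    have h5 : 0 < t ^ 3 := by positivity
    rw [this]; nlinarith
  have h6 : t ^ 6 ≤ 1 := pow_le_one₀ ht.le (by linarith)
  refine ⟨h0, h3, h4, ?_⟩
  have h8 : t ^ 7 = t ^ 3 * t ^ 4 := by ring
  have h9 : 0 < t ^ 3 := by positivity
  have h10 : t ^ 4 ≤ 1 := pow_le_one₀ ht.le (by linarith)
  rw [h8]; nlinarith

/-- the left side near a functional pit -/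
lemma lf_eq {t y y0 : ℝ} (ht : 0 < t) (h : t ≤ 1 / 2 ^ 60) (h0 : y0 = 1 / 4 ∨ y0 = -1 / 4)
    (hy : |y - y0| ≤ 1 / 128) : lf t y = -1 / 2 + (t ^ 3 - t ^ 4) - t ^ 4 * (y - y0) := by
  obtain ⟨s1, s3, s4, s7⟩ := smalls ht h
  have p3 : 0 < t ^ 3 := by positivity
  have p4 : 0 < t ^ 4 := by positivity
  obtain ⟨h1, h2⟩ := abs_le.mp hy
  have c0 : chamf t (hh t) y = 0 := by
    unfold chamf
    rw [max_eq_left]
    have : |y| ≤ 1 / 4 + 1 / 128 := by
      rcases h0 with rfl | rfl <;> exact abs_le.mpr ⟨by linarith, by linarith⟩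
    have : (0 : ℝ) ≤ t ^ 2 := by positivity
    unfold hh
    linarith
  have c1 : slit t (1 - t ^ 3 / 4) (y + 1 / 16) = 0 := by
    refine slit_far ht (by linarith) ?_
    rcases h0 with rfl | rfl
    · exact le_abs.mpr (Or.inl (by linarith))
    · exact le_abs.mpr (Or.inr (by linarith))
  have c2 : slit t (1 - 3 * t ^ 3 / 4) (y - 1 / 16) = 0 := by
    refine slit_far ht (by linarith) ?_
    rcases h0 with rfl | rfl
    · exact le_abs.mpr (Or.inl (by linarith))
    · exact le_abs.mpr (Or.inr (by linarith))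
  unfold lf
  rw [c0, c1, c2]
  rcases h0 with rfl | rfl
  · rw [pit_far (e := y + 1 / 4) (le_abs.mpr (Or.inl (by linarith))) (by linarith) (by linarith),
      pit_eq hy (by linarith) (by linarith)]
    ring
  · have hy' : |y + 1 / 4| ≤ 1 / 128 := abs_le.mpr ⟨by linarith, by linarith⟩
    rw [pit_far (e := y - 1 / 4) (le_abs.mpr (Or.inr (by linarith))) (by linarith) (by linarith),
      pit_eq hy' (by linarith) (by linarith)]
    ring

/-- a point in the mouth of a functional pit which is not interior lies outside of the shape -/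
lemma pit_out (hS1 : S1Stmt) {t : ℝ} {g : Motion} {z : ℂ} {y0 : ℝ} (ht : 0 < t)
    (h : t ≤ 1 / 2 ^ 60) (h0 : y0 = 1 / 4 ∨ y0 = -1 / 4)
    (hr : |((starRingEnd ℂ) g.u * (z - g.v)).re + 1 / 2| ≤ 1 / 100)
    (hi' : |((starRingEnd ℂ) g.u * (z - g.v)).im - y0| ≤ 1 / 128) (hz : z ∉ interior (tile t g)) :
    ((starRingEnd ℂ) g.u * (z - g.v)).re ≤
      -1 / 2 + (t ^ 3 - t ^ 4) - t ^ 4 * (((starRingEnd ℂ) g.u * (z - g.v)).im - y0) := by
  obtain ⟨s1, s3, s4, s7⟩ := smalls ht h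
  have p3 : 0 < t ^ 3 := by positivity
  have p4 : 0 < t ^ 4 := by positivity
  set w : ℂ := (starRingEnd ℂ) g.u * (z - g.v) with hw
  by_contra hcon
  push Not at hcon
  apply hz
  have hgz : g.app w = z := g.homeo.right_inv z
  have e1 : interior (tile t g) = g.app '' interior (shape t) :=
    (g.homeo.image_interior (shape t)).symm
  rw [e1]
  refine ⟨w, (hS1 t ht h).1 ?_, hgz⟩
  obtain ⟨r1, r2⟩ := abs_le.mp hr
  obtain ⟨i1, i2⟩ := abs_le.mp hi'
  have hsq : (0 : ℝ) ≤ t ^ 2 := by positivity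
  have hab : |w.im| ≤ 1 / 4 + 1 / 128 := by
    rcases h0 with rfl | rfl <;> exact abs_le.mpr ⟨by linarith, by linarith⟩
  obtain ⟨w1, w2⟩ := abs_le.mp hab
  have hre : |w.re| ≤ 1 / 2 + 1 / 100 := abs_le.mpr ⟨by linarith, by linarith⟩
  have hch : chamf t (1 / 2) w.re ≤ 1 / 100 + t := by
    unfold chamf
    exact max_le (by linarith) (by linarith)
  refine ⟨?_, ?_, ?_, ?_⟩
  · have := dent_le (t := t) (e := w.re + 1 / 4) ht
    have := dent_le (t := t) (e := w.re - 1 / 4) ht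
    unfold lo hh
    linarith
  · have := bump_nonneg t (w.re + 1 / 4)
    have := bump_nonneg t (w.re - 1 / 4)
    unfold hi hh
    linarith
  · rw [lf_eq ht h h0 hi']
    linarith
  · have c0 : chamf t (hh t) w.im = 0 := by
      unfold chamf
      rw [max_eq_left]
      unfold hh
      linarith
    have q1 := pit_le (a := t ^ 3 / 2) (b := -t ^ 3) (e := w.im + 5 / 16)
      (abs_le.mpr ⟨by linarith, by linarith⟩) (by linarith)
    have q2 := pit_le (a := t ^ 3 / 2) (b := t ^ 3) (e := w.im + 3 / 16)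
      (abs_le.mpr ⟨by linarith, by linarith⟩) (by linarith)
    have q3 := pit_le (a := t ^ 3 / 2) (b := t ^ 3) (e := w.im - 3 / 16)
      (abs_le.mpr ⟨by linarith, by linarith⟩) (by linarith)
    have q4 := pit_le (a := t ^ 3 / 2) (b := -t ^ 3) (e := w.im - 5 / 16)
      (abs_le.mpr ⟨by linarith, by linarith⟩) (by linarith)
    rw [abs_neg, abs_of_pos p3] at q1 q4
    rw [abs_of_pos p3] at q2 q3
    unfold rt
    rw [c0]
    linarith

theorem e2 (hS1 : S1Stmt) : E2Stmt := by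
  intro t g a Y0 Y2 y ht h hN hY0 hy hl hr ht1 ht2
  obtain ⟨s1, s3, s4, s7⟩ := smalls ht h
  have p3 : 0 < t ^ 3 := by positivity
  have p4 : 0 < t ^ 4 := by positivity
  obtain ⟨-, hvx, hvy, hu⟩ := hN
  -- the rotation
  have hrot : rot g 1 = ⟨g.u.im, -g.u.re⟩ := by
    unfold rot
    apply Complex.ext <;> simp
  set c : ℝ := g.u.im with hc
  set s : ℝ := -g.u.re with hs
  rw [pow_one] at hu
  have hc1 : |c - 1| ≤ 1 / 1024 := by
    have := Complex.abs_im_le_norm (g.u - Complex.I)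
    simp only [Complex.sub_im, Complex.I_im] at this
    exact this.trans hu
  have hs1 : |s| ≤ 1 / 1024 := by
    have := Complex.abs_re_le_norm (g.u - Complex.I)
    simp only [Complex.sub_re, Complex.I_re, sub_zero] at this
    rw [hs, abs_neg]
    exact this.trans hu
  have hcs : c ^ 2 + s ^ 2 = 1 := by
    have h1 : Complex.normSq g.u = 1 := by rw [Complex.normSq_eq_norm_sq, g.unit]; norm_num
    rw [Complex.normSq_apply] at h1
    rw [hs, hc]
    linarith
  obtain ⟨c1, c2⟩ := abs_le.mp hc1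
  obtain ⟨s1', s2'⟩ := abs_le.mp hs1
  have hcpos : 0 < c := by linarith
  have hcle : c ≤ 1 := by nlinarith [sq_nonneg s]
  simp only [Complex.sub_re, Complex.sub_im] at hvx hvy
  obtain ⟨x1, x2⟩ := abs_le.mp hvx
  obtain ⟨v1, v2⟩ := abs_le.mp hvy
  obtain ⟨Ya, Yb⟩ := abs_le.mp hY0
  obtain ⟨ya, yb⟩ := abs_le.mp hy
  set dx : ℝ := g.v.re - a.re - 1 / 2 with hdx
  set y0 : ℝ := Y0 + t ^ 3 - g.v.im with hy0
  have hy0a : |y0 + 1 / 2| ≤ 1 / 256 := by rw [abs_le]; constructor <;> linarith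
  obtain ⟨y0a, y0b⟩ := abs_le.mp hy0a
  -- the local coordinates
  have hloc : ∀ X Y : ℝ, ((starRingEnd ℂ) g.u * ((⟨X, Y⟩ : ℂ) - g.v)).re =
      c * (Y - g.v.im) - s * (X - g.v.re) ∧
      ((starRingEnd ℂ) g.u * ((⟨X, Y⟩ : ℂ) - g.v)).im =
      -(c * (X - g.v.re) + s * (Y - g.v.im)) := by
    intro X Y
    simp only [Complex.mul_re, Complex.mul_im, Complex.conj_re, Complex.conj_im, Complex.sub_re,
      Complex.sub_im, hc, hs]
    constructor <;> ring
  have habs1 : |s * y0| ≤ 1 / 1024 * (51 / 100) := by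
    rw [abs_mul]
    exact mul_le_mul hs1 (abs_le.mpr ⟨by linarith, by linarith⟩) (abs_nonneg _) (by norm_num)
  have habs2 : |c * dx| ≤ 1 * (1 / 1024) := by
    rw [abs_mul]
    refine mul_le_mul (by rw [abs_of_pos hcpos]; exact hcle) ?_ (abs_nonneg _) (by norm_num)
    exact abs_le.mpr ⟨by linarith, by linarith⟩
  have habs3 : |s * dx| ≤ 1 / 1024 * (1 / 1024) := by
    rw [abs_mul]
    exact mul_le_mul hs1 (abs_le.mpr ⟨by linarith, by linarith⟩) (abs_nonneg _) (by norm_num)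
  have habs4 : |c * (y0 + 1 / 2)| ≤ 1 * (1 / 256) := by
    rw [abs_mul]
    exact mul_le_mul (by rw [abs_of_pos hcpos]; exact hcle) hy0a (abs_nonneg _) (by norm_num)
  obtain ⟨m1, m2⟩ := abs_le.mp habs1
  obtain ⟨m3, m4⟩ := abs_le.mp habs2
  obtain ⟨m5, m6⟩ := abs_le.mp habs3
  obtain ⟨m7, m8⟩ := abs_le.mp habs4
  -- the two apexes
  have A1 : c * y0 - s * (-1 / 4 - dx) ≤
      -1 / 2 + (t ^ 3 - t ^ 4) - t ^ 4 * (-(c * (-1 / 4 - dx) + s * y0) - 1 / 4) := by
    obtain ⟨q1, q2⟩ := hloc (a.re + 1 / 4) (Y0 + t ^ 3)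
    have f1 : c * (Y0 + t ^ 3 - g.v.im) - s * (a.re + 1 / 4 - g.v.re) =
        c * y0 - s * (-1 / 4 - dx) := by rw [hy0, hdx]; ring
    have f2 : -(c * (a.re + 1 / 4 - g.v.re) + s * (Y0 + t ^ 3 - g.v.im)) =
        -(c * (-1 / 4 - dx) + s * y0) := by rw [hy0, hdx]; ring
    rw [f1] at q1
    rw [f2] at q2
    have := pit_out hS1 (y0 := 1 / 4) ht h (Or.inl rfl) (by
      rw [q1, abs_le]; constructor <;> linarith) (by
      rw [q2, abs_le]; constructor <;> linarith) hl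
    rwa [q1, q2] at this
  have A2 : c * y0 - s * (1 / 4 - dx) ≤
      -1 / 2 + (t ^ 3 - t ^ 4) - t ^ 4 * (-(c * (1 / 4 - dx) + s * y0) - -1 / 4) := by
    obtain ⟨q1, q2⟩ := hloc (a.re + 3 / 4) (Y0 + t ^ 3)
    have f1 : c * (Y0 + t ^ 3 - g.v.im) - s * (a.re + 3 / 4 - g.v.re) =
        c * y0 - s * (1 / 4 - dx) := by rw [hy0, hdx]; ring
    have f2 : -(c * (a.re + 3 / 4 - g.v.re) + s * (Y0 + t ^ 3 - g.v.im)) =
        -(c * (1 / 4 - dx) + s * y0) := by rw [hy0, hdx]; ring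
    rw [f1] at q1
    rw [f2] at q2
    have := pit_out hS1 (y0 := -1 / 4) ht h (Or.inr rfl) (by
      rw [q1, abs_le]; constructor <;> linarith) (by
      rw [q2, abs_le]; constructor <;> linarith) hr
    rwa [q1, q2] at this
  -- the average
  have A3 : c * y0 + s * dx ≤ -1 / 2 + (t ^ 3 - t ^ 4) - t ^ 4 * (c * dx - s * y0) := by
    linarith
  -- division by the cosine
  set K : ℝ := 1 / c with hK
  set T : ℝ := s / c with hT
  have hK1 : 1 ≤ K := by rw [hK, le_div_iff₀ hcpos]; linarith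
  have hcK : c * K = 1 := by rw [hK]; field_simp
  have hTK : T = s * K := by rw [hT, hK]; ring
  have A4 : y0 + T * dx ≤ (-1 / 2 + (t ^ 3 - t ^ 4)) * K - t ^ 4 * (dx - T * y0) := by
    have := mul_le_mul_of_nonneg_right A3 (by linarith : (0 : ℝ) ≤ K)
    have f1 : (c * y0 + s * dx) * K = (c * K) * y0 + s * K * dx := by ring
    have f2 : (-1 / 2 + (t ^ 3 - t ^ 4) - t ^ 4 * (c * dx - s * y0)) * K =
        (-1 / 2 + (t ^ 3 - t ^ 4)) * K - t ^ 4 * ((c * K) * dx - s * K * y0) := by ring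
    rw [f1, f2, hcK, ← hTK] at this
    linarith
  have hHY : HY t 1 = 1 / 2 := by simp [HY]
  have hHX : HX t 1 = hh t := by simp [HX]
  have B1 : g.v.im + K / 2 + T * (-3 / 8 - dx) ≤ Y2 := by
    have := ht1
    unfold tpL at this
    rw [hrot, hHY] at this
    simp only at this
    have f1 : g.v.im + 1 / 2 / c + s / c * (a.re + 1 / 8 - g.v.re) =
        g.v.im + K / 2 + T * (-3 / 8 - dx) := by rw [hK, hT, hdx]; ring
    linarith
  have B2 : g.v.im + K / 2 + T * (3 / 8 - dx) ≤ Y2 := by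
    have := ht2
    unfold tpL at this
    rw [hrot, hHY] at this
    simp only at this
    have f1 : g.v.im + 1 / 2 / c + s / c * (a.re + 7 / 8 - g.v.re) =
        g.v.im + K / 2 + T * (3 / 8 - dx) := by rw [hK, hT, hdx]; ring
    linarith
  have B3 : g.v.im + K / 2 - T * dx + 3 / 8 * |T| ≤ Y2 := by
    rcases abs_cases T with ⟨h1, -⟩ | ⟨h1, -⟩ <;> rw [h1] <;> linarith
  -- the left side
  have hL : lfL t g 1 y + hh t - (a.re + 1 / 2) = dx + hh t * (1 - K) - T * (y - g.v.im) := by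
    unfold lfL
    rw [hrot, hHX]
    simp only
    rw [hK, hT, hdx]
    ring
  have hL2 : lfL t g 1 y + hh t - (a.re + 1 / 2) ≤ dx + |T| / 256 := by
    rw [hL]
    have f1 : hh t * (1 - K) ≤ 0 := by
      refine mul_nonpos_of_nonneg_of_nonpos ?_ (by linarith)
      unfold hh
      positivity
    have f2 : -(T * (y - g.v.im)) ≤ |T| * (1 / 256) := by
      refine (neg_le_abs _).trans ?_
      rw [abs_mul]
      exact mul_le_mul_of_nonneg_left (abs_le.mpr ⟨by linarith, by linarith⟩) (abs_nonneg _)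
    linarith
  have hT0 := abs_nonneg T
  have f3 : T * y0 ≤ |T| * (51 / 100) := by
    refine (le_abs_self _).trans ?_
    rw [abs_mul]
    exact mul_le_mul_of_nonneg_left (abs_le.mpr ⟨by linarith, by linarith⟩) (abs_nonneg _)
  have f4 : t ^ 4 * (T * y0) ≤ t ^ 4 * (|T| * (51 / 100)) := mul_le_mul_of_nonneg_left f3 p4.le
  have f5 : t ^ 4 * (lfL t g 1 y + hh t - (a.re + 1 / 2)) ≤ t ^ 4 * (dx + |T| / 256) :=
    mul_le_mul_of_nonneg_left hL2 p4.le
  have f6 : (1 - t ^ 3 + t ^ 4) * 1 ≤ (1 - t ^ 3 + t ^ 4) * K :=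
    mul_le_mul_of_nonneg_left hK1 (by linarith)
  have f7 : t ^ 4 * |T| ≤ 1 / 1000 * |T| := mul_le_mul_of_nonneg_right (by linarith) hT0
  linarith

end Pool.Agent.Helper2_Pak.H35
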