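import Pool.Agent.Helper2_Pak.Stmts

/-! R3: tomography. -/

namespace Pool.Agent.Helper2_Pak.H35

open Finset

variable (G : Lay) (o : ℕ → ℕ → Bool)

/-- the difference of the marks -/
def df (c r : ℕ) : ℤ := (if G.spc c r then 1 else 0) - (if o c r then 1 else 0)

/-- the running difference of the marks -/
def rn (c r : ℕ) : ℤ := ((G.dr c r).1 : ℤ) - (G.cum o c r : ℤ)

lemma rn_zero (r : ℕ) : rn G o 0 r = 0 := by simp [rn, Lay.dr, Lay.cum]

lemma rn_succ (c r : ℕ) : rn G o (c + 1) r = if G.pres c r then rn G o c r + df G o c r else 0 := by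
  unfold rn df
  simp only [Lay.dr, Lay.cum]
  by_cases h : G.pres c r = true
  · simp only [h, if_true]
    split_ifs <;> push_cast <;> ring
  · simp [h]

/-- summation along a row -/
lemma row (β : ℕ → ℤ) (r c : ℕ) :
    ∑ i ∈ range c, (if G.pres i r then β (G.st i r) * df G o i r else 0) =
      (∑ X ∈ range c, (if G.wallR X r then β (G.st (X - 1) r) * rn G o X r else 0)) +
      (if 0 < c ∧ G.pres (c - 1) r = true then β (G.st (c - 1) r) * rn G o c r else 0) := by
  induction c with
  | zero => simp
  | succ c ih =>
    rw [sum_range_succ, sum_range_succ, ih, rn_succ]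
    simp only [Nat.add_sub_cancel, Nat.succ_pos, true_and]
    by_cases h : G.pres c r = true
    · have hw : G.wallR c r = false := by simp [Lay.wallR, h]
      simp only [h, hw, if_true]
      by_cases h' : 0 < c ∧ G.pres (c - 1) r = true
      · have hst : G.st c r = G.st (c - 1) r := by
          obtain ⟨c', rfl⟩ : ∃ c', c = c' + 1 := ⟨c - 1, by omega⟩
          simp only [Nat.add_sub_cancel] at h' ⊢
          simp [Lay.st, h'.2]
        rw [if_pos h', hst]
        simp
        ring
      · have hS : rn G o c r = 0 := by
          rcases Nat.eq_zero_or_pos c with rfl | hc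
          · exact rn_zero G o r
          · obtain ⟨c', rfl⟩ : ∃ c', c = c' + 1 := ⟨c - 1, by omega⟩
            rw [rn_succ, if_neg]
            intro h2
            exact h' ⟨by omega, by simpa using h2⟩
        rw [if_neg h', hS]
        simp
    · by_cases h' : 0 < c ∧ G.pres (c - 1) r = true
      · have hw : G.wallR c r = true := by
          have h3 : G.pres c r = false := by simpa using h
          simp [Lay.wallR, h3, h'.1, h'.2]
        simp [h, h', hw]
      · have hw : G.wallR c r = false := by
          by_contra hcon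
          have h3 : G.wallR c r = true := by simpa using hcon
          apply h'
          simp only [Lay.wallR, Bool.and_eq_true, decide_eq_true_eq] at h3
          exact ⟨h3.1.1, h3.1.2⟩
        simp [h, h', hw]

theorem r3 : R3Stmt := by
  intro G o hOK h1 h2
  obtain ⟨α, β, hsep⟩ := hOK.sep
  set R : ℕ := ∑ c ∈ range G.M, G.top c with hR
  have hpres : ∀ c r, G.pres c r = true ↔ c < G.M ∧ r < G.top c := by
    intro c r
    simp [Lay.pres]
  have htop : ∀ c, c < G.M → G.top c ≤ R := fun c hc =>
    single_le_sum (f := fun c => G.top c) (fun _ _ => Nat.zero_le _) (mem_range.mpr hc)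
  -- the rows
  have hrow : ∀ (b : ℕ → ℤ) (r : ℕ),
      ∑ i ∈ range G.M, (if G.pres i r then b (G.st i r) * df G o i r else 0) =
        ∑ X ∈ range (G.M + 1), (if G.wallR X r then b (G.st (X - 1) r) * rn G o X r else 0) := by
    intro b r
    have hM : ¬ G.pres G.M r = true := by rw [hpres]; omega
    have h3 := row G o b r (G.M + 1)
    rw [sum_range_succ] at h3
    simp only [hM, Nat.add_sub_cancel] at h3
    simpa using h3
  have hnn : ∀ X r, G.wallR X r = true → 0 ≤ rn G o X r := by
    intro X r h
    have := h1 X r h
    unfold rn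
    omega
  -- the columns
  have hcol : ∀ c, c < G.M →
      ∑ r ∈ range R, (if G.pres c r then df G o c r else 0) =
        ∑ r ∈ range (G.top c), df G o c r := by
    intro c hc
    rw [← sum_filter]
    refine sum_congr ?_ fun _ _ => rfl
    ext r
    simp only [mem_filter, mem_range, hpres]
    have := htop c hc
    constructor
    · rintro ⟨-, -, h⟩
      exact h
    · intro h
      exact ⟨by omega, hc, h⟩
  have hcol' : ∀ c, c < G.M → ∑ r ∈ range R, (if G.pres c r then df G o c r else 0) ≤ 0 := by
    intro c hc
    rw [hcol c hc]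
    unfold df
    rw [sum_sub_distrib]
    have h3 := h2 c hc
    have h4 : ((∑ r ∈ range (G.top c), (if G.spc c r then 1 else 0) : ℕ) : ℤ) ≤
        ((∑ r ∈ range (G.top c), (if o c r then 1 else 0) : ℕ) : ℤ) := by exact_mod_cast h3
    push_cast at h4
    linarith
  -- the total
  have htot : ∑ c ∈ range G.M, ∑ r ∈ range R, (if G.pres c r then df G o c r else 0) =
      ∑ r ∈ range R, ∑ X ∈ range (G.M + 1), (if G.wallR X r then rn G o X r else 0) := by
    rw [sum_comm]
    refine sum_congr rfl fun r _ => ?_
    have := hrow (fun _ => 1) r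
    simpa using this
  have hT1 : ∑ c ∈ range G.M, ∑ r ∈ range R, (if G.pres c r then df G o c r else 0) ≤ 0 :=
    sum_nonpos fun c hc => hcol' c (mem_range.mp hc)
  have hnn' : ∀ r ∈ range R, ∀ X ∈ range (G.M + 1), 0 ≤ (if G.wallR X r then rn G o X r else 0) := by
    intro r _ X _
    split_ifs with h
    · exact hnn X r h
    · exact le_rfl
  have hT2 : 0 ≤ ∑ r ∈ range R, ∑ X ∈ range (G.M + 1), (if G.wallR X r then rn G o X r else 0) :=
    sum_nonneg fun r hr => sum_nonneg fun X hX => hnn' r hr X hX
  have hT : ∑ c ∈ range G.M, ∑ r ∈ range R, (if G.pres c r then df G o c r else 0) = 0 :=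
    le_antisymm hT1 (htot ▸ hT2)
  have hcz : ∀ c ∈ range G.M, ∑ r ∈ range R, (if G.pres c r then df G o c r else 0) = 0 :=
    (sum_eq_zero_iff_of_nonpos fun c hc => hcol' c (mem_range.mp hc)).mp hT
  have hrz : ∀ r ∈ range R, ∀ X ∈ range (G.M + 1),
      (if G.wallR X r then rn G o X r else 0) = 0 := by
    intro r hr
    have h3 := (sum_eq_zero_iff_of_nonneg fun r hr => sum_nonneg fun X hX => hnn' r hr X hX).mp
      (htot ▸ hT) r hr
    exact (sum_eq_zero_iff_of_nonneg fun X hX => hnn' r hr X hX).mp h3
  -- the weighted total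
  have hW : ∑ c ∈ range G.M, ∑ r ∈ range R,
      (if G.pres c r then (α c + β (G.st c r) r) * df G o c r else 0) = 0 := by
    have h3 : ∀ c r, (if G.pres c r then (α c + β (G.st c r) r) * df G o c r else 0) =
        α c * (if G.pres c r then df G o c r else 0) +
          (if G.pres c r then β (G.st c r) r * df G o c r else 0) := by
      intro c r
      split_ifs
      · ring
      · ring
    simp only [h3, sum_add_distrib, ← mul_sum]
    have h4 : ∑ c ∈ range G.M, α c * ∑ r ∈ range R, (if G.pres c r then df G o c r else 0) = 0 :=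
      sum_eq_zero fun c hc => by rw [hcz c hc, mul_zero]
    rw [h4, zero_add, sum_comm]
    refine sum_eq_zero fun r hr => ?_
    rw [hrow (fun s => β s r) r]
    refine sum_eq_zero fun X hX => ?_
    have h5 := hrz r hr X hX
    split_ifs with h
    · rw [if_pos h] at h5
      rw [h5, mul_zero]
    · rfl
  have hterm : ∀ c r, 0 ≤ (if G.pres c r then (α c + β (G.st c r) r) * df G o c r else 0) := by
    intro c r
    split_ifs with h
    · obtain ⟨h3, h4⟩ := hsep c r h
      unfold df
      by_cases hs : G.spc c r = true
      · have h5 := h3 hs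
        simp only [hs, if_true]
        refine mul_nonneg h5.le ?_
        split_ifs <;> norm_num
      · have hs' : G.spc c r = false := by simpa using hs
        have h5 := h4 hs'
        simp only [hs', Bool.false_eq_true, if_false]
        refine mul_nonneg_of_nonpos_of_nonpos h5.le ?_
        split_ifs <;> norm_num
    · exact le_rfl
  intro c r hcr
  obtain ⟨hc, hr⟩ := (hpres c r).mp hcr
  have hr' : r ∈ range R := mem_range.mpr (lt_of_lt_of_le hr (htop c hc))
  have h3 := (sum_eq_zero_iff_of_nonneg fun c _ => sum_nonneg fun r _ => hterm c r).mp hW c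
    (mem_range.mpr hc)
  have h4 := (sum_eq_zero_iff_of_nonneg fun r _ => hterm c r).mp h3 r hr'
  rw [if_pos hcr] at h4
  obtain ⟨h5, h6⟩ := hsep c r hcr
  unfold df at h4
  by_cases hs : G.spc c r = true
  · rw [hs]
    by_contra ho
    have := h5 hs
    simp [hs, ho] at h4
    omega
  · have hs' : G.spc c r = false := by simpa using hs
    rw [hs']
    by_contra ho
    have ho' : o c r = true := by simpa using ho
    have := h6 hs'
    simp [hs', ho'] at h4
    omega

end Pool.Agent.Helper2_Pak.H35
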